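import Pool.Agent.Hsh.FcFinal

namespace Pool.Agent.Results.MP_51bd69_co.FewCorners

open Pool.Agent.Hsh

/-- Let `T` be a closed topological disk and `P` a finite set of points (the sharp points). A multiset
of frontier points is a vertex type (`VType T M`) if it has at least three elements, the lower
densities of the interior of `T` at its points have sum at most `1`, and the upper densities of `T`
at its points have sum at least `1` (for a polygon: the interior angles have sum `2 * π`).

`T` cannot be surrounded `r` times by copies of itself in each of the cases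

* `|P| ≤ 1`, `r = 2`, every vertex type has at most two elements outside `P`;
* `|P| ≤ 2`, `r = 3`, every vertex type has at most one element outside `P`;
* `|P| ≤ 3`, `r = 5`, every vertex type has at most five elements, at most one of them outside `P`,
  and exactly three elements if one is outside `P`;
* `|P| ≤ 5`, `r = 5`, every vertex type consists of exactly three elements of `P`.

Let `d` be the lower density (`α / (2 * π)` at a corner of interior angle `α`), `δ ≤ d` at all
frontier points, and `u < d` at all frontier points outside `P`. The cases apply (theorem `fc_row`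
of the imported file) if `1 / 3 ≤ u`; if `1 ≤ 2 * u + δ`; if `1 / 6 < δ`, `1 ≤ 2 * u + δ` and
`1 ≤ u + 3 * δ`; if `1 / 4 < δ` and `1 ≤ u + 2 * δ`. For example a prototile with at most three
convex corners, all larger than `60` degrees, and a prototile with at most five convex corners, all
larger than `90` degrees, cannot be surrounded five times. -/
theorem result : ∀ (T : Set ℂ) (P : Finset ℂ) (r : ℕ), IsDisk T →
    ((P.card ≤ 1 ∧ r = 2 ∧ ∀ M, VType T M →
        ∀ J ≤ M, (∀ q ∈ J, q ∉ P) → Multiset.card J ≤ 2) ∨
      (P.card ≤ 2 ∧ r = 3 ∧ ∀ M, VType T M →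
        ∀ J ≤ M, (∀ q ∈ J, q ∉ P) → Multiset.card J ≤ 1) ∨
      (P.card ≤ 3 ∧ r = 5 ∧ ∀ M, VType T M → Multiset.card M ≤ 5 ∧
        (∀ J ≤ M, (∀ q ∈ J, q ∉ P) → Multiset.card J ≤ 1) ∧
        ∀ q ∈ M, q ∉ P → Multiset.card M = 3) ∨
      (P.card ≤ 5 ∧ r = 5 ∧ ∀ M, VType T M → Multiset.card M = 3 ∧ ∀ q ∈ M, q ∈ P)) →
    ¬ CanSurround T r :=
  fun T P r hT hrow => fc_main T hT P r hrow

end Pool.Agent.Results.MP_51bd69_co.FewCorners
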