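import Pool.Agent.Hsh.All
import Pool.Agent.Hsh.FinalB
import Pool.Agent.Hsh.Ball
import Pool.Agent.Hsh.Grow
import Pool.Agent.Hsh.Area
import Pool.Agent.Hsh.Num

namespace Pool.Agent.Results.MP_51bd69_co.LogBound

open Pool.Agent.Hsh

/-- For every `κ > 0` there is `C > 0` such that every closed topological disk `T` for which the
numbers `ext T q = max 0 (1 - 2 d(q))` (`d(q)` the lower density of the interior of `T` at `q`) have
sum at most `2 - κ` over every finite set of frontier points (total exterior angle at the convex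
corners at most `(2 - κ) π`) can be surrounded at most `C log (2 + diam(T)² / area(int T))` times. -/
theorem result : ∀ κ : ℝ, 0 < κ → ∃ C : ℝ, 0 < C ∧ ∀ T : Set ℂ, IsDisk T →
    (∀ F : Finset ℂ, (↑F : Set ℂ) ⊆ frontier T → ∑ q ∈ F, ext T q ≤ 2 - κ) →
    ∀ r : ℕ, CanSurround T r →
      (r : ℝ) ≤ C * Real.log
        (2 + Metric.diam T ^ 2 / (MeasureTheory.volume (interior T)).toReal) :=
  fun κ hκ => finB_main all_bas all_hull all_rec all_dens (ball all_bas all_vFin all_arc1)
    (grow all_arc1 all_hull all_open) area num κ hκ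

end Pool.Agent.Results.MP_51bd69_co.LogBound
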