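import Pool.Agent.Hsh.AllD

namespace Pool.Agent.Results.MP_51bd69_co.TwoCornersTwice

open Pool.Agent.Hsh

/-- Let `T` be a closed topological disk. If the interior of `T` has positive lower density at every
frontier point of `T`, and lower density less than `1/2` at no more than two of them (at most two
convex corners, none of them a cusp), then `T` cannot be surrounded twice by copies of itself. -/
theorem result : ∀ T : Set ℂ, IsDisk T →
    (∀ q ∈ frontier T, 0 < lowDens T q) →
    (∀ F : Finset ℂ, (↑F : Set ℂ) ⊆ frontier T → (∀ q ∈ F, lowDens T q < 1 / 2) → F.card ≤ 2) →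
    ¬ CanSurround T 2 :=
  fun T hT h1 h2 => finD_main all_bas all_cfg all_dat all_local T hT h1 h2

end Pool.Agent.Results.MP_51bd69_co.TwoCornersTwice
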