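import Pool.Agent.Hsh.Wts

namespace Pool.Agent.Results.MP_51bd69_co.WeightsTwice

open Pool.Agent.Hsh

/-- Let `T` be a closed topological disk and `y` a nonnegative function on its frontier. A multiset
of frontier points is a vertex type (`VType T M`) if it has at least three elements, the lower
densities of the interior of `T` at its points have sum at most `1`, and the upper densities of `T`
at its points have sum at least `1` (for a polygon: the interior angles have sum `2 * π`).

`T` cannot be surrounded twice by copies of itself in each of the two cases

* the sums of `y` over finite sets of frontier points are at most `1`, and for every vertex type `M`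
  the sum of `y` over `M` is at least `|M| - 2`;
* the sums of `y` over finite sets of frontier points are at most `2`, for every proper part `I` of a
  vertex type the sum of `y` over `I` is at least `|I| - 1`, and `y` is at least `1` at no more than
  one frontier point.

Examples: in the first case, total exterior angle at most `π` at the convex corners
(`y = ext T`), or at most one convex corner of angle at most `120` degrees (`y = 1` there); in the
second case, at most four convex corners, all obtuse (`y = 1 / 2` there), or three convex corners,
any two of them having an angle sum of more than `180` degrees (`y = 1` at the smallest one and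
`y = 1 / 2` at the other two). -/
theorem result : ∀ T : Set ℂ, IsDisk T → ∀ y : ℂ → ℝ, (∀ q ∈ frontier T, 0 ≤ y q) →
    (((∀ F : Finset ℂ, (↑F : Set ℂ) ⊆ frontier T → ∑ q ∈ F, y q ≤ 1) ∧
        ∀ M : Multiset ℂ, VType T M → (Multiset.card M : ℝ) - 2 ≤ (M.map y).sum) ∨
      ((∀ F : Finset ℂ, (↑F : Set ℂ) ⊆ frontier T → ∑ q ∈ F, y q ≤ 2) ∧
        (∀ M : Multiset ℂ, VType T M → ∀ I < M, (Multiset.card I : ℝ) - 1 ≤ (I.map y).sum) ∧
        ∀ p ∈ frontier T, ∀ q ∈ frontier T, 1 ≤ y p → 1 ≤ y q → p = q)) →
    ¬ CanSurround T 2 :=
  fun T hT y hy hcase => w_main T hT y hy hcase

end Pool.Agent.Results.MP_51bd69_co.WeightsTwice
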